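import Pool.Agent.W23.PP.Wt5

/-!
Almost prime values of `N - p`, `√N < p < 4√N`, for `p` in an arbitrary dense set of primes, with the
sharp number of exceptional `N`; more generally `|N| ≤ X^g`, `1 ≤ g ≤ 2`, `p ≤ X`.
-/

set_option autoImplicit false

namespace Pool.Agent.Results.MP_b58c63_nt.WindowsDenseSets

/-- `|N - p| = m s`, where `1 ≤ m ≤ (log X)^t` and `s > 1` is a product of at most `r` primes, each at
least `X^(1/8)` -/
def Rep (X t r : ℕ) (N : ℤ) (p : ℕ) : Prop :=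
  ∃ m s : ℕ, (N - p).natAbs = m * s ∧ 1 ≤ m ∧ (m : ℝ) ≤ Real.log X ^ t ∧ 1 < s ∧
    s.primeFactorsList.length ≤ r ∧ ∀ q : ℕ, q.Prime → q ∣ s → (X : ℝ) ^ (1 / 8 : ℝ) ≤ q

/-- the `p ∈ A` in the window `√N < p < 4√N`, `p ≠ N - p`, such that `|N - p| = m s`,
`1 ≤ m ≤ (log X)^t`, `s > 1` a product of at most five primes, each at least `X^(1/8)` -/
def window (A : Finset ℕ) (X t N : ℕ) : Set ℕ :=
  {p : ℕ | p ∈ A ∧ Real.sqrt N < p ∧ (p : ℝ) < 4 * Real.sqrt N ∧ (p : ℤ) ≠ N - p ∧ Rep X t 5 N p}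

/-- `log X / log log X` -/
noncomputable def q (X : ℕ) : ℝ := Real.log X / Real.log (Real.log X)

theorem general (g : ℝ) (r : ℕ) (hg1 : 1 ≤ g) (hg2 : g ≤ 2) (hgr : g < 9 / 20 * ((r : ℝ) - 1 / 29))
    (δ : ℝ) (hδ : 0 < δ) :
    ∃ (c C : ℝ) (t X₀ : ℕ), 0 < c ∧ ∀ X : ℕ, X₀ ≤ X → ∀ A : Finset ℕ,
      (∀ p ∈ A, p.Prime ∧ p ≤ X) → δ * (X / Real.log X) ≤ A.card →
      ({N : ℤ | |(N : ℝ)| ≤ (X : ℝ) ^ g ∧
          (({p : ℕ | p ∈ A ∧ Rep X t r N p}.ncard : ℕ) : ℝ) < c / q X * A.card}.ncard : ℝ) ≤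
        C * q X := by
  classical
  obtain ⟨c, C, t, X₁, hc, hC, H⟩ := Pool.Agent.W23.PP.primeW g r hg1 hg2 hgr δ hδ
  obtain ⟨X₂, hX₂3, H2⟩ := Pool.Agent.W23.PP.loglog_large
  refine ⟨c, C + 1, t, max X₁ X₂, hc, fun X hX A hA hAc => ?_⟩
  have hX₁ : X₁ ≤ X := (le_max_left _ _).trans hX
  have hX₂ : X₂ ≤ X := (le_max_right _ _).trans hX
  obtain ⟨h1, h2, h3⟩ := H2 X hX₂
  have hq1 : 1 ≤ q X := by
    unfold q
    rw [one_le_div (by linarith)]
    exact h2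
  set S : Set ℤ := {N : ℤ | |(N : ℝ)| ≤ (X : ℝ) ^ g ∧
    (({p : ℕ | p ∈ A ∧ Rep X t r N p}.ncard : ℕ) : ℝ) < c / q X * A.card} with hS
  have hfin : S.Finite := by
    refine (Set.finite_Icc (-⌈(X : ℝ) ^ g⌉) ⌈(X : ℝ) ^ g⌉).subset fun N hN => ?_
    obtain ⟨h4, h5⟩ := abs_le.1 hN.1
    have h6 := Int.le_ceil ((X : ℝ) ^ g)
    constructor
    · have : ((-⌈(X : ℝ) ^ g⌉ : ℤ) : ℝ) ≤ N := by
        push_cast
        linarith
      exact_mod_cast this
    · have : (N : ℝ) ≤ (⌈(X : ℝ) ^ g⌉ : ℝ) := by linarith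
      exact_mod_cast this
  rw [Set.ncard_eq_toFinset_card S hfin]
  have h5 := H X hX₁ A hA hAc (hfin.toFinset.erase 0) (fun h hh => by
    rw [Finset.mem_erase, Set.Finite.mem_toFinset] at hh
    exact ⟨hh.1, hh.2.1⟩) (fun h hh => by
    rw [Finset.mem_erase, Set.Finite.mem_toFinset] at hh
    have h6 := hh.2.2
    have h7 : c / q X = c * (Real.log (Real.log X) / Real.log X) := by
      unfold q
      rw [div_div_eq_mul_div, mul_div_assoc]
    rw [h7] at h6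
    refine lt_of_le_of_lt ?_ h6
    rw [← Set.ncard_coe_finset]
    refine Nat.cast_le.2 (Set.ncard_le_ncard ?_ (A.finite_toSet.subset fun p hp => hp.1))
    intro p hp
    unfold Pool.Agent.W23.PP.GW at hp
    rw [Finset.mem_coe, Finset.mem_filter] at hp
    obtain ⟨hpA, m, s, e1, e2, e3, e4, e5, e6⟩ := hp
    exact ⟨hpA, m, s, e1, e2, e3, e4, e5, fun l hl hls =>
      e6 l (Nat.mem_primeFactors.2 ⟨hl, hls, by omega⟩)⟩)
  have h6 : hfin.toFinset.card ≤ (hfin.toFinset.erase 0).card + 1 := by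
    have := Finset.pred_card_le_card_erase (s := hfin.toFinset) (a := 0)
    omega
  have h7 : (hfin.toFinset.card : ℝ) ≤ ((hfin.toFinset.erase 0).card : ℝ) + 1 := by
    exact_mod_cast h6
  have h8 : C * (Real.log X / Real.log (Real.log X)) = C * q X := rfl
  rw [h8] at h5
  linarith

/-- With `q X = log X / log log X`:
(1) For every `δ > 0` there are `c > 0`, `C`, `t` such that for every large `X` and every set `A` of
primes `p` with `X/2 < p ≤ X`, `|A| ≥ δ X / log X`, for all but at most `C q X` integers `N` with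
`X²/16 < N ≤ X²/4` at least `c |A| / q X` of the `p ∈ A` are such that `√N < p < 4√N`, `p ≠ N - p` and
`N - p = m s`, where `m ≤ (log X)^t` and `s > 1` is a product of at most five primes, each at least
`X^(1/8)`.
(2) The same, for every set `A` of primes `p ≤ X`, for the integers `N` with `|N| ≤ X^g`, where
`1 ≤ g ≤ 2` and `s` is a product of at most `r` primes, provided that `g < (9/20) (r - 1/29)`.
(3) For all nonzero integers `|N| ≤ X²` the number of all primes `p ≤ X` with such a representation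
is at most `C X / (q X log X)`, for every `t`, however many prime factors of `s` are allowed.
(4) The number of exceptions cannot be reduced: for every `t` and `η > 0` there is `c > 0` such that
for every large `X` and every set `H` of at most `c q X` nonzero integers `|N| ≤ X²` there is a set `A`
of primes `p ≤ X` which contains all of them except at most `η X / log X`, such that for no `N ∈ H`
and no `p ∈ A` the number `N - p` has such a representation, however many prime factors of `s` are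
allowed. -/
theorem result :
    (∀ δ : ℝ, 0 < δ → ∃ (c C : ℝ) (t X₀ : ℕ), 0 < c ∧ ∀ X : ℕ, X₀ ≤ X → ∀ A : Finset ℕ,
      (∀ p ∈ A, p.Prime ∧ (X : ℝ) / 2 < p ∧ p ≤ X) → δ * (X / Real.log X) ≤ A.card →
      ({N : ℕ | X ^ 2 < 16 * N ∧ 4 * N ≤ X ^ 2 ∧
          ((window A X t N).ncard : ℝ) < c / q X * A.card}.ncard : ℝ) ≤ C * q X) ∧
    (∀ (g : ℝ) (r : ℕ), 1 ≤ g → g ≤ 2 → g < 9 / 20 * ((r : ℝ) - 1 / 29) → ∀ δ : ℝ, 0 < δ →
      ∃ (c C : ℝ) (t X₀ : ℕ), 0 < c ∧ ∀ X : ℕ, X₀ ≤ X → ∀ A : Finset ℕ,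
      (∀ p ∈ A, p.Prime ∧ p ≤ X) → δ * (X / Real.log X) ≤ A.card →
      ({N : ℤ | |(N : ℝ)| ≤ (X : ℝ) ^ g ∧
          (({p : ℕ | p ∈ A ∧ Rep X t r N p}.ncard : ℕ) : ℝ) < c / q X * A.card}.ncard : ℝ) ≤
        C * q X) ∧
    (∀ t : ℕ, ∃ (C : ℝ) (X₀ : ℕ), ∀ X : ℕ, X₀ ≤ X → ∀ N : ℤ, N ≠ 0 → |(N : ℝ)| ≤ (X : ℝ) ^ 2 →
      ({p : ℕ | p.Prime ∧ p ≤ X ∧ ∃ r : ℕ, Rep X t r N p}.ncard : ℝ) ≤
        C * (X / (q X * Real.log X))) ∧
    (∀ (t : ℕ) (η : ℝ), 0 < η → ∃ (c : ℝ) (X₀ : ℕ), 0 < c ∧ ∀ X : ℕ, X₀ ≤ X → ∀ H : Finset ℤ,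
      (∀ N ∈ H, N ≠ 0 ∧ |(N : ℝ)| ≤ (X : ℝ) ^ 2) → (H.card : ℝ) ≤ c * q X →
      ∃ A : Finset ℕ, (∀ p ∈ A, p.Prime ∧ p ≤ X) ∧
        ({p : ℕ | p.Prime ∧ p ≤ X}.ncard : ℝ) - A.card ≤ η * (X / Real.log X) ∧
        ∀ N ∈ H, ∀ p ∈ A, ∀ r : ℕ, ¬ Rep X t r N p) := by
  classical
  have hpf : ∀ X : ℕ, {p : ℕ | p.Prime ∧ p ≤ X} =
      (((Finset.Icc 1 X).filter Nat.Prime : Finset ℕ) : Set ℕ) := by
    intro X
    ext p
    rw [Finset.mem_coe, Finset.mem_filter, Finset.mem_Icc]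
    exact ⟨fun h => ⟨⟨h.1.pos, h.2⟩, h.1⟩, fun h => ⟨h.2, h.1.2⟩⟩
  have hRS : ∀ (X t r : ℕ) (N : ℤ) (p : ℕ), Rep X t r N p → Pool.Agent.W23.PP.RepS X t N p := by
    rintro X t r N p ⟨m, s, e1, e2, e3, e4, e5, e6⟩
    exact ⟨m, s, e1, e2, e3, e4, fun l hl => e6 l (Nat.prime_of_mem_primeFactors hl)
      (Nat.dvd_of_mem_primeFactors hl)⟩
  refine ⟨?_, ?_, ?_, ?_⟩
  · intro δ hδ
    obtain ⟨c, C, t, X₁, hc, H⟩ := general 2 5 (by norm_num) le_rfl (by norm_num) δ hδ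
    refine ⟨c, C, t, max X₁ 32, hc, fun X hX A hA hAc => ?_⟩
    have hX₁ : X₁ ≤ X := (le_max_left _ _).trans hX
    have hX32 : 32 ≤ X := (le_max_right _ _).trans hX
    have hX0 : (0 : ℝ) < X := by exact_mod_cast (by omega : 0 < X)
    refine le_trans ?_ (H X hX₁ A (fun p hp => ⟨(hA p hp).1, (hA p hp).2.2⟩) hAc)
    set S : Set ℤ := {N : ℤ | |(N : ℝ)| ≤ (X : ℝ) ^ (2 : ℝ) ∧
      (({p : ℕ | p ∈ A ∧ Rep X t 5 N p}.ncard : ℕ) : ℝ) < c / q X * A.card} with hS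
    have hfin : S.Finite := by
      refine (Set.finite_Icc (-((X : ℤ) ^ 2)) ((X : ℤ) ^ 2)).subset fun N hN => ?_
      have h4 := hN.1
      rw [Real.rpow_two] at h4
      obtain ⟨h5, h6⟩ := abs_le.1 h4
      exact ⟨by exact_mod_cast h5, by exact_mod_cast h6⟩
    refine Nat.cast_le.2 (Set.ncard_le_ncard_of_injOn (fun N : ℕ => (N : ℤ)) ?_
      (fun a _ b _ hab => by simpa using hab) hfin)
    rintro N ⟨hN1, hN2, hN3⟩
    have hN1' : (X : ℝ) ^ 2 < 16 * N := by exact_mod_cast hN1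
    have hN2' : 4 * (N : ℝ) ≤ (X : ℝ) ^ 2 := by exact_mod_cast hN2
    have hN0 : (0 : ℝ) ≤ N := Nat.cast_nonneg _
    refine ⟨?_, lt_of_le_of_lt ?_ hN3⟩
    · rw [Real.rpow_two]
      push_cast
      rw [abs_of_nonneg hN0]
      linarith
    · refine Nat.cast_le.2 (Set.ncard_le_ncard ?_ (A.finite_toSet.subset fun p hp => hp.1))
      rintro p ⟨hpA, hpR⟩
      obtain ⟨hp1, hp2, hp3⟩ := hA p hpA
      have hp3' : (p : ℝ) ≤ X := by exact_mod_cast hp3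
      have hsq1 : Real.sqrt N ≤ X / 2 := by
        rw [Real.sqrt_le_left (by positivity)]
        nlinarith
      have hsq2 : (X : ℝ) < 4 * Real.sqrt N := by
        have h1 : (X : ℝ) / 4 < Real.sqrt N := by
          rw [Real.lt_sqrt (by positivity)]
          nlinarith
        linarith
      refine ⟨hpA, lt_of_le_of_lt hsq1 hp2, lt_of_le_of_lt hp3' hsq2, ?_, hpR⟩
      intro h
      have h1 : 2 * p = N := by omega
      have h2 : N ≤ 2 * X := by omega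
      have h3 : X ^ 2 < 32 * X := by omega
      nlinarith
  · intro g r hg1 hg2 hgr δ hδ
    exact general g r hg1 hg2 hgr δ hδ
  · intro t
    obtain ⟨C, X₀, hC, H⟩ := Pool.Agent.W23.PP.primeUp t
    obtain ⟨X₂, hX₂3, H2⟩ := Pool.Agent.W23.PP.loglog_large
    refine ⟨C, max X₀ X₂, fun X hX N hN0 hN => ?_⟩
    obtain ⟨h1, h2, h3⟩ := H2 X ((le_max_right _ _).trans hX)
    have h4 := H X ((le_max_left _ _).trans hX) N hN0 hN
    have h5 : C * (X / (q X * Real.log X)) =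
        C * (Real.log (Real.log X) / Real.log X) * (X / Real.log X) := by
      unfold q
      have a1 : Real.log X ≠ 0 := by linarith
      have a2 : Real.log (Real.log X) ≠ 0 := by linarith
      field_simp
    rw [h5]
    refine le_trans ?_ h4
    rw [← Set.ncard_coe_finset]
    refine Nat.cast_le.2 (Set.ncard_le_ncard ?_ (Finset.finite_toSet _))
    rintro p ⟨hp1, hp2, r, hr⟩
    rw [Finset.mem_coe, Finset.mem_filter, Finset.mem_filter, Finset.mem_Icc]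
    exact ⟨⟨⟨hp1.pos, hp2⟩, hp1⟩, hRS X t r N p hr⟩
  · intro t η hη
    obtain ⟨c, X₀, hc, H⟩ := Pool.Agent.W23.PP.primeSh t η hη
    refine ⟨c, X₀, hc, fun X hX K hK hKc => ?_⟩
    obtain ⟨A, hA1, hA2, hA3⟩ := H X hX K hK hKc
    refine ⟨A, hA1, ?_, fun N hN p hp r hr => hA3 N hN p hp (hRS X t r N p hr)⟩
    rw [hpf X, Set.ncard_coe_finset]
    exact hA2

end Pool.Agent.Results.MP_b58c63_nt.WindowsDenseSets
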